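import Pool.Agent.H.MP_790f3b_al.FW

set_option autoImplicit false

namespace Pool.Agent.H.MP_790f3b_al

universe v

section
variable {G : Type*} [Group G] {M : Type*} [AddCommGroup M] {C : Type*} [CommRing C] [Module C M]
  {lam : G →* Module.End ℤ M} {π : G → M}

lemma Good.triv (h : FW C lam π) {c : G} {θ : C} (h1 : Good π c θ) (e : (θ - 1) • π c = 0) (n : ℕ) :
    π (c ^ n) = (n : C) • π c := by
  obtain ⟨-, r, h2, -⟩ := h1.pow h n
  rw [h2]; linear_combination (norm := module) r • e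

lemma Good.root (h : FW C lam π) (hT : TF C π) {u v : G} {θ η : C} (h1 : Good π u θ)
    (h2 : Good π v η) {p : ℕ} (hp : p ≠ 0) (e : v ^ p = u) (e' : (θ - 1) • π u = 0) :
    π u = (p : C) • π v := by
  subst e
  obtain ⟨h3, r, h4, h5⟩ := h2.pow h p
  obtain rfl := h1.uniq h h3
  have hn : IsNilpotent ((η - 1) * r) := (Commute.all _ _).isNilpotent_mul_right (h2.nil h)
  have hW : W C π (π v) := ⟨v, η, h2, rfl⟩
  refine h2.triv h (hT.inj hn hp (hW.smul h _) (hT.inj hn hp ((hW.smul h _).smul h _) ?_)) p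
  rw [h4, h5] at e'
  linear_combination (norm := module) e'

lemma kill_all (h : FW C lam π) (hT : TF C π) (θ : G → C) (hθ : ∀ g, Good π g (θ g))
    {Z : Subgroup G} {x y : G} (hZ : ∀ z ∈ Z, π z = 0)
    (gen : ∀ K : Subgroup G, x ∈ K → y ∈ K → Z ≤ K → ∀ g, ∃ n : ℕ, n ≠ 0 ∧ g ^ n ∈ K)
    (γ : C) (hx : γ • π x = 0) (hy : γ • π y = 0) (g : G) : γ • π g = 0 := by
  let K : Subgroup G :=
    { carrier := {g | γ • π g = 0}
      mul_mem' := fun {a b} ha hb => by
        change γ • π (a * b) = 0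
        have ha' : γ • π a = 0 := ha
        have hb' : γ • π b = 0 := hb
        rw [hθ b a]
        linear_combination (norm := module) hb' + θ b • ha'
      one_mem' := by change γ • π 1 = 0; rw [h.one, smul_zero]
      inv_mem' := fun {a} ha => by
        change γ • π a⁻¹ = 0
        have e := hθ a⁻¹ a
        have ha' : γ • π a = 0 := ha
        rw [mul_inv_cancel, h.one] at e
        linear_combination (norm := module) -γ • e - θ a⁻¹ • ha' }
  obtain ⟨n, hn, hg⟩ := gen K hx hy (fun z hz => by change γ • π z = 0; rw [hZ z hz, smul_zero]) g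
  obtain ⟨-, r, h2, -⟩ := (hθ g).pow h n
  have hg' : γ • π (g ^ n) = 0 := hg
  refine hT.inj ((Commute.all _ r).isNilpotent_mul_right ((hθ g).nil h)) hn
    (W.smul h ⟨g, _, hθ g, rfl⟩ _) ?_
  rw [h2] at hg'
  linear_combination (norm := module) hg'
end

def Big (P : Set ℕ) : Prop := P.Infinite ∧ ∀ p ∈ P, p.Prime

structure GP {G : Type*} [Group G] (Z : Subgroup G) (x y : G) : Prop where
  cen : ∀ z ∈ Z, ∀ g, z * g = g * z
  c2 : ∀ g h : G, ∃ z ∈ Z, g * h = z * (h * g)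
  tf : ∀ (g : G) (n : ℕ), n ≠ 0 → g ^ n = 1 → g = 1
  tfZ : ∀ (g : G) (n : ℕ), n ≠ 0 → g ^ n ∈ Z → g ∈ Z
  H1 : ∀ P, Big P → ∀ g : G, (∀ p ∈ P, ∃ c, g = c ^ (p * p)) → g = 1
  HZ : ∀ P, Big P → ∀ g : G, (∀ p ∈ P, ∃ c, ∃ z ∈ Z, g = z * c ^ (p * p)) → g ∈ Z
  rZ : ∀ z ∈ Z, ∀ P, Big P → ∃ P', Big P' ∧ P' ⊆ P ∧ ∀ p ∈ P', ∃ v ∈ Z, v ^ p = z
  rt : ∀ u, u = x ∨ u = y ∨ u = x * y → ∃ P, Big P ∧ ∀ p ∈ P, ∃ v, v ^ p = u
  gen : ∀ K : Subgroup G, x ∈ K → y ∈ K → Z ≤ K → ∀ g, ∃ n : ℕ, n ≠ 0 ∧ g ^ n ∈ K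
  rank : ∀ (U : Type v) [CommGroup U] (D : Subgroup G) (τ : D →* U) (c : ℕ → D),
    ∃ e : ℕ → ℤ, (∃ i < 6, e i ≠ 0) ∧ ∏ i ∈ Finset.range 6, τ (c i) ^ e i = 1
  nsq : ∀ z ∈ Z, x * y ≠ z * z * (y * x)

variable {G : Type*} [Group G] {M : Type v} [AddCommGroup M] {lam : G →* Module.End ℤ M}
  {π : G → M} {Z : Subgroup G} {x y : G}

lemma quot (hG : GP.{v} Z x y) (coc : ∀ g h, π (g * h) = π g + lam g (π h))
    (surj : Function.Surjective π) (K : Submodule ℤ M) (hK : ∀ g, ∀ m ∈ K, lam g m ∈ K)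
    (h1 : ∀ z ∈ Z, π z ∈ K) (h2 : ∀ z ∈ Z, ∀ m, lam z m - m ∈ K) :
    ∃ (C : Type v) (_ : CommRing C) (_ : Module C (M ⧸ K)) (lq : G →* Module.End ℤ (M ⧸ K))
      (θ : G → C), FW C lq (fun g => K.mkQ (π g)) ∧ (∀ g, Good (fun g => K.mkQ (π g)) g (θ g)) ∧
      ∀ g m, θ g • K.mkQ m = K.mkQ (lam g m) := by
  let lq : G →* Module.End ℤ (M ⧸ K) :=
    { toFun := fun g => K.mapQ K (lam g) (hK g)
      map_one' := by ext; simp
      map_mul' := fun a b => by ext; simp }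
  have hl : ∀ g m, lq g (K.mkQ m) = K.mkQ (lam g m) := fun _ _ => rfl
  have hz : ∀ z ∈ Z, lq z = 1 := fun z hz => by
    ext m
    exact (Submodule.Quotient.eq K).2 (h2 z hz m)
  have hzp : ∀ z ∈ Z, ∀ g, K.mkQ (π (z * g)) = K.mkQ (π g) := fun z hz' g => by
    rw [coc, map_add, ← hl, hz z hz', (Submodule.Quotient.mk_eq_zero K).2 (h1 z hz') |> fun e =>
      (e : K.mkQ (π z) = 0)]
    simp
  have sw : ∀ g h, K.mkQ (π (g * h)) = K.mkQ (π (h * g)) := fun g h => by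
    obtain ⟨z, hz', e⟩ := hG.c2 g h
    rw [e, hzp z hz']
  have hθ : ∀ g, ∃ θ : CC lq, ∀ m, θ • m = lq g m := fun g => CC_ex lq g fun a => by
    obtain ⟨z, hz', e⟩ := hG.c2 a g
    rw [← map_mul, e, map_mul, hz z hz', one_mul, map_mul]
  choose θ hθ using hθ
  refine ⟨CC lq, inferInstance, inferInstance, lq, θ, mkFW (fun g h => by rw [coc, map_add, hl])
    (K.mkQ_surjective.comp surj) (fun g c e => ?_) (hG.rank _), fun c g => ?_,
    fun g m => by rw [hθ, hl]⟩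
  · rw [sw]; simpa using e
  · change K.mkQ _ = _
    rw [sw, coc, map_add, hθ, hl]

lemma fixpow (coc : ∀ g h, π (g * h) = π g + lam g (π h)) {d : G} (e : lam d (π d) = π d) (n : ℕ) :
    π (d ^ n) = n • π d := by
  induction n with
  | zero => simpa using coc 1 1
  | succ n ih => rw [pow_succ', coc, ih, map_nsmul, e, succ_nsmul']

lemma sq_zero_pow {v : G} (e : ∀ m, lam v (lam v m - m) = lam v m - m) (n : ℕ) (m : M) :
    lam (v ^ n) m - m = n • (lam v m - m) := by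
  induction n with
  | zero => simp
  | succ n ih =>
    rw [pow_succ', map_mul, Module.End.mul_apply, sub_eq_iff_eq_add.1 ih, map_add, map_nsmul, e,
      succ_nsmul]
    abel

theorem absurd_brace (hG : GP.{v} Z x y) (coc : ∀ g h, π (g * h) = π g + lam g (π h))
    (bij : Function.Bijective π) : False := by
  have p1 : π 1 = 0 := by simpa using coc 1 1
  have p0 : ∀ g, π g = 0 → g = 1 := fun g e => bij.1 (e.trans p1.symm)
  have hb : ∀ {P : Set ℕ}, Big P → ∀ p ∈ P, p ≠ 0 := fun h p hp => (h.2 p hp).ne_zero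
  have lc : ∀ z ∈ Z, ∀ g m, lam g (lam z m) = lam z (lam g m) := fun z hz g m => by
    rw [← Module.End.mul_apply, ← map_mul, ← hG.cen z hz, map_mul, Module.End.mul_apply]
  have sy : ∀ z ∈ Z, ∀ g, lam g (π z) - π z = lam z (π g) - π g := fun z hz g => by
    have := coc g z
    rw [← hG.cen z hz, coc] at this
    linear_combination (norm := abel) -this
  -- step 1
  have s1 : ∀ z ∈ Z, ∀ z' ∈ Z, lam z (π z') = π z' := by
    have F : FW (CC lam) lam π := mkFW coc bij.2 (fun g c e => by simp [p0 g e, p1]) (hG.rank _)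
    have hT := tf_of F fun g n hn e => by rw [hG.tf g n hn (p0 _ e), p1]
    have hθ : ∀ z ∈ Z, ∃ θ : CC lam, (∀ m, θ • m = lam z m) ∧ Good π z θ := fun z hz => by
      obtain ⟨θ, hθ⟩ := CC_ex lam z fun a => by rw [← map_mul, ← hG.cen z hz, map_mul]
      exact ⟨θ, hθ, fun g => by rw [← hG.cen z hz, coc, hθ]⟩
    have a1 : ∀ z ∈ Z, ∀ θ : CC lam, Good π z θ → (θ - 1) • π z = 0 := fun z hz θ hθ' => by
      obtain ⟨P0, hP0, -⟩ := hG.rt x (Or.inl rfl)
      obtain ⟨P, hP, -, hr⟩ := hG.rZ z hz P0 hP0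
      refine F.main hT P (hb hP) (fun m hm => ?_) hθ' fun p hp => ?_
      · obtain ⟨g, rfl⟩ := bij.2 m
        rw [hG.H1 P hP g fun p hp => ?_, p1]
        obtain ⟨c, θc, h1, h2, h3⟩ := hm p hp
        exact ⟨c, bij.1 (by rw [h1.triv F h2, h3, Nat.cast_mul])⟩
      · obtain ⟨v, hv, e⟩ := hr p hp
        obtain ⟨η, -, h⟩ := hθ v hv
        exact ⟨v, η, h, e⟩
    intro z hz z' hz'
    obtain ⟨θ, e, h⟩ := hθ z hz
    obtain ⟨η, e', h'⟩ := hθ z' hz'
    have := F.polar hT h h' (by rw [sub_smul, sub_smul, e, e', one_smul, one_smul, sy z' hz'])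
      (a1 z hz θ h) (a1 z' hz' η h') (a1 _ (Z.mul_mem hz hz') _ (h.mul h'))
    rwa [sub_smul, e, one_smul, sub_eq_zero] at this
  have s1' : ∀ z ∈ Z, ∀ z' ∈ Z, ∀ m, lam z (lam z' m - m) = lam z' m - m := fun z hz z' hz' m => by
    obtain ⟨g, rfl⟩ := bij.2 m
    rw [← sy z' hz', map_sub, ← lc z hz, s1 z hz z' hz']
  -- step 2
  have s2 : ∀ z ∈ Z, ∀ m, lam z m = m := by
    have key : ∀ z ∈ Z, (∀ d m, π d = lam z m - m → ∀ n : ℕ, π (d ^ n) = n • π d) ∧
        (∀ u v P p, Big P → (∀ p ∈ P, ∃ v, v ^ p = u) → p ≠ 0 → v ^ p = u →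
          lam z (π u) - π u = p • (lam z (π v) - π v)) ∧
        (lam z (π x) = π x → lam z (π y) = π y → ∀ m, lam z m = m) := by
      intro z hz
      have mK : ∀ m, m ∈ LinearMap.ker (lam z - 1) ↔ lam z m = m := fun m => by
        simp [sub_eq_zero]
      have mQ : ∀ m, (LinearMap.ker (lam z - 1)).mkQ m = 0 ↔ lam z m = m := fun m => by
        rw [← mK]; exact Submodule.Quotient.mk_eq_zero _
      have mE : ∀ m m', (LinearMap.ker (lam z - 1)).mkQ m = (LinearMap.ker (lam z - 1)).mkQ m' →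
          lam z m - m = lam z m' - m' := fun m m' e => by
        have := (mQ (m - m')).1 (by rw [map_sub, e, sub_self])
        rw [map_sub] at this
        linear_combination (norm := abel) this
      obtain ⟨C, _, _, lq, θ, F, hθ, hl⟩ := quot hG coc bij.2 (LinearMap.ker (lam z - 1))
        (fun g m hm => (mK _).2 (by rw [← lc z hz, (mK _).1 hm]))
        (fun z' hz' => (mK _).2 (s1 z hz z' hz')) fun z' hz' m => (mK _).2 (s1' z hz z' hz' m)
      have tr : ∀ d m, π d = lam z m - m → ∀ n : ℕ, π (d ^ n) = n • π d := by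
        intro d m e
        refine fixpow coc ?_
        obtain ⟨g, rfl⟩ := bij.2 m
        have e0 := (mQ _).2 (e ▸ s1' z hz z hz (π g))
        have e1 := hθ g d
        have e2 := hθ d g
        beta_reduce at e1 e2
        have e3 : (LinearMap.ker (lam z - 1)).mkQ (π (g * d)) =
            (LinearMap.ker (lam z - 1)).mkQ (π (d * g)) := by
          rw [coc, map_add, ← hl, e0, e1, e0]
        simp only [e1, e2, e0, smul_zero, zero_add, add_zero, hl] at e3
        have e4 := mE _ _ e3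
        rw [e, map_sub, lc z hz, e4]
      have hT : TF C fun g => (LinearMap.ker (lam z - 1)).mkQ (π g) := by
        rintro n hn _ ⟨c, -, -, rfl⟩ e
        obtain ⟨d, hd⟩ := bij.2 (lam z (π c) - π c)
        rw [Nat.cast_smul_eq_nsmul, ← map_nsmul, mQ, map_nsmul] at e
        have := hG.tf d n hn (p0 _ (by rw [tr d _ hd, hd, smul_sub, e, sub_self]))
        rw [this, p1] at hd
        exact (mQ _).2 (sub_eq_zero.1 hd.symm)
      refine ⟨tr, fun u v P p hP hr hp e => ?_, fun hx hy m => ?_⟩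
      · have := F.main hT P (hb hP) (fun m hm => ?_) (hθ u) fun p hp =>
          (hr p hp).elim fun v e => ⟨v, _, hθ v, e⟩
        · have e1 := (hθ u).root F hT (hθ v) hp e this
          rw [Nat.cast_smul_eq_nsmul, ← map_nsmul] at e1
          rw [mE _ _ e1, map_nsmul, smul_sub]
        · obtain ⟨m, rfl⟩ := (LinearMap.ker (lam z - 1)).mkQ_surjective m
          obtain ⟨g, hg⟩ := bij.2 (lam z m - m)
          have := hG.H1 P hP g fun p hp => by
            obtain ⟨c, -, -, -, h3⟩ := hm p hp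
            obtain ⟨d, hd⟩ := bij.2 (lam z (π c) - π c)
            rw [← Nat.cast_mul, Nat.cast_smul_eq_nsmul, ← map_nsmul] at h3
            exact ⟨d, bij.1 (by rw [tr d _ hd, hd, hg, mE _ _ h3, map_nsmul, smul_sub])⟩
          rw [this, p1] at hg
          exact (mQ _).2 (sub_eq_zero.1 hg.symm)
      · obtain ⟨g, rfl⟩ := bij.2 m
        have := kill_all F hT θ hθ (fun z' hz' => (mQ _).2 (s1 z hz z' hz')) hG.gen 1
          (by rw [one_smul]; exact (mQ _).2 hx) (by rw [one_smul]; exact (mQ _).2 hy) g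
        rw [one_smul] at this
        exact (mQ _).1 this
    intro z hz
    have : ∀ u, u = x ∨ u = y ∨ u = x * y → lam z (π u) = π u := by
      intro u hu
      obtain ⟨P, hP, hr⟩ := hG.rt u hu
      obtain ⟨P', hP', hs, hr'⟩ := hG.rZ z hz P hP
      obtain ⟨g, hg⟩ := bij.2 (lam z (π u) - π u)
      have := hG.H1 P' hP' g fun p hp => by
        obtain ⟨v, e⟩ := hr p (hs hp)
        obtain ⟨w, hw, e'⟩ := hr' p hp
        obtain ⟨d, hd⟩ := bij.2 (lam w (π v) - π v)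
        refine ⟨d, bij.1 ?_⟩
        rw [(key w hw).1 d _ hd, hd, hg, ← e', sq_zero_pow (s1' w hw w hw),
          (key w hw).2.1 u v P p hP hr (hb hP' p hp) e, mul_smul]
      rw [this, p1] at hg
      exact sub_eq_zero.1 hg.symm
    exact (key z hz).2.2 (this x (Or.inl rfl)) (this y (Or.inr (Or.inl rfl)))
  -- step 3
  have fz : ∀ z ∈ Z, ∀ g, lam g (π z) = π z := fun z hz g => by
    rw [← sub_eq_zero, sy z hz, s2 z hz, sub_self]
  have pz : ∀ z ∈ Z, ∀ g, π (z * g) = π z + π g := fun z hz g => by rw [coc, s2 z hz]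
  let K : Submodule ℤ M := AddSubgroup.toIntSubmodule
    { carrier := {m | ∃ z ∈ Z, π z = m}
      add_mem' := by
        rintro _ _ ⟨z, hz, rfl⟩ ⟨z', hz', rfl⟩
        exact ⟨_, Z.mul_mem hz hz', pz z hz z'⟩
      zero_mem' := ⟨1, Z.one_mem, p1⟩
      neg_mem' := by
        rintro _ ⟨z, hz, rfl⟩
        exact ⟨_, Z.inv_mem hz, eq_neg_of_add_eq_zero_right (by rw [← pz z hz, mul_inv_cancel, p1])⟩ }
  have mE : ∀ m m', K.mkQ m = K.mkQ m' ↔ ∃ z ∈ Z, π z = m - m' := fun m m' =>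
    Submodule.Quotient.eq K
  have mQ : ∀ m, K.mkQ m = 0 ↔ ∃ z ∈ Z, π z = m := fun m => Submodule.Quotient.mk_eq_zero K
  obtain ⟨C, _, _, lq, θ, F, hθ, hl⟩ := quot hG coc bij.2 K
    (by rintro g _ ⟨z, hz, rfl⟩; exact ⟨z, hz, (fz z hz g).symm⟩) (fun z hz => ⟨z, hz, rfl⟩)
    fun z hz m => by rw [s2 z hz, sub_self]; exact K.zero_mem
  have zq : ∀ z ∈ Z, K.mkQ (π z) = 0 := fun z hz => (mQ _).2 ⟨z, hz, rfl⟩
  have hT := tf_of F fun g n hn e => zq g (hG.tfZ g n hn (by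
    obtain ⟨z, hz, e⟩ := (mQ _).1 e
    exact bij.1 e ▸ hz))
  have a3 : ∀ u, u = x ∨ u = y ∨ u = x * y → (θ u - 1) • K.mkQ (π u) = 0 := fun u hu => by
    obtain ⟨P, hP, hr⟩ := hG.rt u hu
    refine F.main hT P (hb hP) (fun m hm => ?_) (hθ u) fun p hp =>
      (hr p hp).elim fun v e => ⟨v, _, hθ v, e⟩
    obtain ⟨g, rfl⟩ := F.surj m
    refine zq g (hG.HZ P hP g fun p hp => ?_)
    obtain ⟨c, θc, h1, h2, h3⟩ := hm p hp
    have := h1.triv F h2 (p * p)
    rw [Nat.cast_mul, ← h3] at this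
    obtain ⟨z, hz, e⟩ := (mE _ _).1 this.symm
    exact ⟨c, z, hz, bij.1 (by rw [pz z hz, e, sub_add_cancel])⟩
  have sq : ∀ g h, (θ g - 1) • K.mkQ (π h) = (θ h - 1) • K.mkQ (π g) := fun g h => by
    have e1 := (hθ h).lam_eq F g
    have e2 := F.coc g h
    have e3 := hθ h g
    have e4 : lq g (K.mkQ (π h)) = θ g • K.mkQ (π h) := by
      have e5 : K.mkQ (π (g * h)) = K.mkQ (π g) + θ g • K.mkQ (π h) := by rw [coc, map_add, hl]
      exact add_left_cancel (e2.symm.trans e5)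
    rw [e4] at e1
    linear_combination (norm := module) e1
  have b1 := F.polar hT (hθ x) (hθ y) (sq x y) (a3 x (Or.inl rfl)) (a3 y (Or.inr (Or.inl rfl)))
    ((hθ _).uniq F ((hθ x).mul (hθ y)) ▸ a3 _ (Or.inr (Or.inr rfl)))
  have s3 : ∀ g h, (θ g - 1) • K.mkQ (π h) = 0 := fun g =>
    kill_all F hT θ hθ zq hG.gen _
      (sq g x ▸ kill_all F hT θ hθ zq hG.gen _ (a3 x (Or.inl rfl)) b1 g)
      (sq g y ▸ kill_all F hT θ hθ zq hG.gen _ (sq x y ▸ b1) (a3 y (Or.inr (Or.inl rfl))) g)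
  have s3' : ∀ g m, ∃ z ∈ Z, π z = lam g m - m := fun g m => by
    obtain ⟨h, rfl⟩ := bij.2 m
    have := s3 g h
    rw [sub_smul, one_smul, hl, sub_eq_zero] at this
    exact (mE _ _).1 this
  have ff : ∀ g h m, lam g (lam h m - m) = lam h m - m := fun g h m => by
    obtain ⟨z, hz, e⟩ := s3' h m
    rw [← e, fz z hz]
  -- step 4
  have s4 : ∀ u, u = x ∨ u = y ∨ u = x * y → lam u (π u) = π u := fun u hu => by
    obtain ⟨P, hP, hr⟩ := hG.rt u hu
    obtain ⟨g, -, hg⟩ := s3' u (π u)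
    have := hG.H1 P hP g fun p hp => by
      obtain ⟨v, rfl⟩ := hr p hp
      obtain ⟨d, hd, e⟩ := s3' v (π v)
      have e1 := (hθ v).triv F (s3 v v) p
      rw [Nat.cast_smul_eq_nsmul, ← map_nsmul] at e1
      obtain ⟨z, hz, e2⟩ := (mE _ _).1 e1
      refine ⟨d, bij.1 ?_⟩
      rw [fixpow coc (fz d hd d), e, hg, sq_zero_pow (ff v v), ← sub_add_cancel (π (v ^ p)) (p • π v),
        ← e2, map_add, fz z hz, map_nsmul, mul_smul, smul_sub p (lam v (π v))]
      congr 1; abel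
    rw [this, p1] at hg
    exact sub_eq_zero.1 hg.symm
  obtain ⟨z, hz, e⟩ := s3' x (π y)
  refine hG.nsq z hz (bij.1 ?_)
  have t1 := s4 x (Or.inl rfl)
  have t2 := s4 y (Or.inr (Or.inl rfl))
  have t3 := s4 _ (Or.inr (Or.inr rfl))
  have t4 := ff x y (π x)
  have t5 : π (x * y) = π x + π y + π z := by rw [coc, e]; abel
  rw [t5, map_add, map_add, fz z hz, map_mul, Module.End.mul_apply, Module.End.mul_apply, t2] at t3
  rw [map_sub, t1] at t4
  rw [mul_assoc, pz z hz, pz z hz, t5, coc]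
  linear_combination (norm := abel) t4 - t3 - e

end Pool.Agent.H.MP_790f3b_al
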