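import Pool.Agent.H.MP_790f3b_al.Nil

set_option autoImplicit false

namespace Pool.Agent.H.MP_790f3b_al

variable {G : Type*} [Group G] {M : Type*} [AddCommGroup M] {C : Type*} [CommRing C] [Module C M]

variable (C) in
structure FW (lam : G →* Module.End ℤ M) (π : G → M) : Prop where
  coc : ∀ g h, π (g * h) = π g + lam g (π h)
  surj : Function.Surjective π
  comm : ∀ g (θ : C) m, lam g (θ • m) = θ • lam g m
  faith : ∀ θ : C, (∀ m : M, θ • m = 0) → θ = 0
  unit : ∀ θ : C, Function.Bijective (fun m : M => θ • m) → IsUnit θ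
  nrm : ∀ g c, π g = 0 → π (c * g * c⁻¹) = 0
  rank : ∀ (D : Subgroup G) (τ : D →* Cˣ) (c : ℕ → D),
    ∃ e : ℕ → ℤ, (∃ i < 6, e i ≠ 0) ∧ ∏ i ∈ Finset.range 6, τ (c i) ^ e i = 1

def Good (π : G → M) (c : G) (θ : C) : Prop := ∀ g, π (g * c) = π c + θ • π g

variable {lam : G →* Module.End ℤ M} {π : G → M}

lemma FW.one (h : FW C lam π) : π 1 = 0 := by simpa using h.coc 1 1

lemma Good.mul {c c' : G} {θ θ' : C} (h1 : Good π c θ) (h2 : Good π c' θ') :
    Good π (c * c') (θ * θ') := fun g => by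
  rw [← mul_assoc, h2, h1, h2]; module

lemma good_one (h : FW C lam π) : Good π 1 (1 : C) := fun g => by simp [h.one]

lemma Good.isUnit (h : FW C lam π) {c : G} {θ : C} (h1 : Good π c θ) : IsUnit θ := by
  refine h.unit θ ⟨(injective_iff_map_eq_zero (DistribSMul.toAddMonoidHom M θ)).2 fun m hm => ?_,
    fun m => ?_⟩
  · obtain ⟨g, rfl⟩ := h.surj m
    have hm' : θ • π g = 0 := hm
    have e : π (c⁻¹ * (g * c)) = 0 := by
      rw [h.coc, h1, hm', add_zero, ← h.coc, inv_mul_cancel, h.one]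
    simpa [mul_assoc] using h.nrm _ c e
  · obtain ⟨g, hg⟩ := h.surj (π c + m)
    have := h1 (g * c⁻¹)
    rw [inv_mul_cancel_right, hg] at this
    exact ⟨_, (add_left_cancel this).symm⟩

lemma Good.inv (h : FW C lam π) {c : G} {θ : Cˣ} (h1 : Good π c (θ : C)) :
    Good π c⁻¹ ((θ⁻¹ : Cˣ) : C) := fun g => by
  have e1 := h1 (g * c⁻¹)
  have e2 := h1 c⁻¹
  rw [inv_mul_cancel_right] at e1
  rw [inv_mul_cancel, h.one] at e2
  have : (θ : C) • π (g * c⁻¹) = (θ : C) • π c⁻¹ + π g := by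
    linear_combination (norm := module) e2 - e1
  have e3 := congrArg (((θ⁻¹ : Cˣ) : C) • ·) this
  simpa [smul_smul] using e3

lemma Good.lam_eq (h : FW C lam π) {c : G} {θ : C} (h1 : Good π c θ) (g : G) :
    lam g (π c) = π c + θ • π g - π g := by
  rw [← h1, h.coc]; abel

lemma Good.smul (h : FW C lam π) {c d : G} {θ : C} (h1 : Good π c θ) (γ : C) (e : π d = γ • π c) :
    Good π d (1 + γ * (θ - 1)) := fun g => by
  rw [h.coc, e, h.comm, h1.lam_eq h]; module

lemma Good.add (h : FW C lam π) {c c' d : G} {θ θ' : C} (h1 : Good π c θ) (h2 : Good π c' θ')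
    (e : π d = π c + π c') : Good π d (θ + θ' - 1) := fun g => by
  rw [h.coc, e, map_add, h1.lam_eq h, h2.lam_eq h]; module

lemma Good.uniq (h : FW C lam π) {c : G} {θ θ' : C} (h1 : Good π c θ) (h2 : Good π c θ') :
    θ = θ' := sub_eq_zero.1 (h.faith _ fun m => by
  obtain ⟨g, rfl⟩ := h.surj m
  rw [sub_smul, add_left_cancel ((h1 g).symm.trans (h2 g)), sub_self])

lemma Good.nil (h : FW C lam π) {c : G} {θ : C} (h1 : Good π c θ) : IsNilpotent (θ - 1) := by
  let J : Ideal C :=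
    { carrier := {j | ∃ c, Good π c (1 + j)}
      add_mem' := by
        rintro a b ⟨c, hc⟩ ⟨c', hc'⟩
        obtain ⟨d, hd⟩ := h.surj (π c + π c')
        exact ⟨d, by convert hc.add h hc' hd using 1; ring⟩
      zero_mem' := ⟨1, by simpa using good_one h⟩
      smul_mem' := by
        rintro γ a ⟨c, hc⟩
        obtain ⟨d, hd⟩ := h.surj (γ • π c)
        exact ⟨d, by simpa using hc.smul h γ hd⟩ }
  let D : Subgroup G :=
    { carrier := {c | ∃ θ : Cˣ, Good π c (θ : C)}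
      mul_mem' := fun ⟨θ, h1⟩ ⟨θ', h2⟩ => ⟨θ * θ', h1.mul h2⟩
      one_mem' := ⟨1, good_one h⟩
      inv_mem' := fun ⟨θ, h1⟩ => ⟨θ⁻¹, h1.inv h⟩ }
  have hD : ∀ c : D, ∃ θ : Cˣ, Good π c.1 (θ : C) := fun c => c.2
  choose t ht using hD
  let τ : D →* Cˣ := MonoidHom.mk' t fun a b => Units.ext ((ht _).uniq h ((ht a).mul (ht b)))
  refine nil_of_rank J (fun j ⟨c, hc⟩ => hc.isUnit h) (fun u hu => ?_) ⟨c, by simpa using h1⟩
  have hu' : ∀ i, ∃ c, Good π c (u i : C) := fun i => by simpa [J] using hu i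
  choose c hc using hu'
  obtain ⟨e, he, hp⟩ := h.rank D τ fun i => ⟨c i, u i, hc i⟩
  refine ⟨e, he, ?_⟩
  rw [← hp]
  exact Finset.prod_congr rfl fun i _ => congrArg (· ^ e i)
    (show u i = τ ⟨c i, u i, hc i⟩ from Units.ext ((hc i).uniq h (ht ⟨c i, u i, hc i⟩)))

lemma Good.pow (h : FW C lam π) {c : G} {θ : C} (h1 : Good π c θ) (n : ℕ) :
    Good π (c ^ n) (θ ^ n) ∧ ∃ r : C, π (c ^ n) = ((n : C) + (θ - 1) * r) • π c ∧
      θ ^ n - 1 = (θ - 1) * ((n : C) + (θ - 1) * r) := by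
  induction n with
  | zero => exact ⟨by simpa using good_one h, 0, by simp [h.one], by simp⟩
  | succ n ih =>
    obtain ⟨h2, r, h3, h4⟩ := ih
    refine ⟨by rw [pow_succ, pow_succ]; exact h2.mul h1, n + θ * r, ?_, ?_⟩
    · rw [pow_succ, h1, h3]; push_cast; module
    · rw [pow_succ]; push_cast; linear_combination θ * h4

variable (C π) in
def W (m : M) : Prop := ∃ (c : G) (θ : C), Good π c θ ∧ π c = m

lemma W.smul (h : FW C lam π) {m : M} (hm : W C π m) (γ : C) : W C π (γ • m) := by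
  obtain ⟨c, θ, h1, rfl⟩ := hm
  obtain ⟨d, hd⟩ := h.surj (γ • π c)
  exact ⟨d, _, h1.smul h γ hd, hd⟩

variable (C π) in
def TF : Prop := ∀ n : ℕ, n ≠ 0 → ∀ m, W C π m → (n : C) • m = 0 → m = 0

lemma TF.inj (hT : TF C π) {ν : C} (hν : IsNilpotent ν) {n : ℕ} (hn : n ≠ 0) {m : M}
    (hm : W C π m) (e : ((n : C) + ν) • m = 0) : m = 0 := by
  obtain ⟨k, hk⟩ := hν
  have : ∀ j : ℕ, ((n ^ j : ℕ) : C) • m = (-ν) ^ j • m := by
    intro j
    induction j with
    | zero => simp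
    | succ j ih =>
      have e' : (n : C) • m = (-ν) • m := by linear_combination (norm := module) e
      rw [pow_succ, Nat.cast_mul, mul_smul, e', smul_comm, ih, pow_succ', mul_smul]
  exact hT _ (pow_ne_zero k hn) m hm (by rw [this, neg_pow, hk]; simp)

lemma tf_of (h : FW C lam π) (hT : ∀ g (n : ℕ), n ≠ 0 → π (g ^ n) = 0 → π g = 0) : TF C π := by
  rintro n hn _ ⟨c, θ, h1, rfl⟩ e
  have : ∀ j : ℕ, ∃ r s : C, π (c ^ n ^ j) = ((θ - 1) ^ j * r) • π c ∧
      Good π (c ^ n ^ j) (1 + (θ - 1) * s) := by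
    intro j
    induction j with
    | zero => exact ⟨1, 1, by simp, by simpa using h1⟩
    | succ j ih =>
      obtain ⟨r, s, h2, h3⟩ := ih
      obtain ⟨h4, t, h5, h6⟩ := h3.pow h n
      rw [← pow_mul, ← pow_succ] at h4 h5
      refine ⟨r * s * t, s * (n + (θ - 1) * s * t), ?_, ?_⟩
      · rw [h5, h2]
        linear_combination (norm := module) ((θ - 1) ^ j * r) • e
      · convert h4 using 1
        linear_combination -h6
  obtain ⟨k, hk⟩ := h1.nil h
  obtain ⟨r, s, h2, -⟩ := this k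
  exact hT c _ (pow_ne_zero k hn) (by rw [h2, hk]; simp)

theorem FW.main (h : FW C lam π) (hT : TF C π) (P : Set ℕ) (hP : ∀ p ∈ P, p ≠ 0)
    (hH : ∀ m, (∀ p ∈ P, ∃ (c : G) (θ : C), Good π c θ ∧ (θ - 1) • π c = 0 ∧
      m = ((p : C) * p) • π c) → m = 0)
    {u : G} {θ : C} (hu : Good π u θ)
    (hr : ∀ p ∈ P, ∃ (v : G) (η : C), Good π v η ∧ v ^ p = u) :
    (θ - 1) • π u = 0 := by
  have step : ∀ k, (θ - 1) ^ (k + 2) • π u = 0 → (θ - 1) ^ (k + 1) • π u = 0 := by
    intro k hk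
    refine hH _ fun p hp => ?_
    obtain ⟨v, η, hv, rfl⟩ := hr p hp
    obtain ⟨h1, r, h2, h3⟩ := hv.pow h p
    obtain rfl := hu.uniq h h1
    rw [h2, h3, mul_pow] at hk ⊢
    set s := (p : C) + (η - 1) * r with hs
    have hn : IsNilpotent ((η - 1) * r) := (Commute.all _ _).isNilpotent_mul_right (hv.nil h)
    have hW : W C π (π v) := ⟨v, η, hv, rfl⟩
    have kill : ∀ (j : ℕ) (γ : C), (s ^ j * γ) • π v = 0 → γ • π v = 0 := by
      intro j
      induction j with
      | zero => simp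
      | succ j ih =>
        intro γ e
        exact ih γ (hT.inj hn (hP p hp) (hW.smul h _) (by rw [← e, smul_smul]; congr 1; ring))
    have k1 : (η - 1) ^ (k + 2) • π v = 0 := kill (k + 3) _ (by rw [← hk, smul_smul]; congr 1; ring)
    obtain ⟨d, hd⟩ := h.surj (((η - 1) ^ (k + 1) * s ^ k) • π v)
    refine ⟨d, _, hv.smul h _ hd, ?_, ?_⟩
    · rw [hd]
      linear_combination (norm := module) ((η - 1) ^ (k + 1) * s ^ k * s ^ k) • k1
    · rw [hd]
      linear_combination (norm := module) (s ^ k * r * (s + p)) • k1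
  obtain ⟨k, hk⟩ := hu.nil h
  have : ∀ j, (θ - 1) ^ (j + 1) • π u = 0 → (θ - 1) • π u = 0 := by
    intro j
    induction j with
    | zero => simp
    | succ j ih => exact fun e => ih (step j e)
  exact this k (by rw [pow_succ, hk]; simp)

/-- polarisation -/
lemma FW.polar (h : FW C lam π) (hT : TF C π) {u v : G} {θ η : C} (hu : Good π u θ)
    (hv : Good π v η) (hs : (θ - 1) • π v = (η - 1) • π u) (h1 : (θ - 1) • π u = 0)
    (h2 : (η - 1) • π v = 0) (h3 : (θ * η - 1) • π (u * v) = 0) : (θ - 1) • π v = 0 := by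
  refine hT 2 two_ne_zero _ (W.smul h ⟨v, η, hv, rfl⟩ _) ?_
  rw [hv u] at h3
  push_cast
  linear_combination (norm := module) h3 - (η * η) • h1 - θ • h2 + hs +
    (η - 1) • hs - (θ - 1) • h2

section mk
variable (lam)

abbrev CC := Subring.center (Subring.centralizer (Set.range lam))

noncomputable instance : Module (CC lam) M :=
  Module.compHom M ((Subring.centralizer (Set.range lam)).subtype.comp (Subring.center _).subtype)

lemma CC_smul (θ : CC lam) (m : M) : θ • m = (θ.1.1 : Module.End ℤ M) m := rfl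

lemma CC_ex (g : G) (hg : ∀ x, lam x * lam g = lam g * lam x) : ∃ θ : CC lam, ∀ m, θ • m = lam g m :=
  ⟨⟨⟨lam g, by rintro _ ⟨x, rfl⟩; exact hg x⟩, Subring.mem_center_iff.2 fun y =>
    Subtype.ext (y.2 _ ⟨g, rfl⟩).symm⟩, fun _ => rfl⟩

variable {lam}
lemma mkFW (coc : ∀ g h, π (g * h) = π g + lam g (π h)) (surj : Function.Surjective π)
    (nrm : ∀ g c, π g = 0 → π (c * g * c⁻¹) = 0)
    (rank : ∀ (D : Subgroup G) (τ : D →* (CC lam)ˣ) (c : ℕ → D),
      ∃ e : ℕ → ℤ, (∃ i < 6, e i ≠ 0) ∧ ∏ i ∈ Finset.range 6, τ (c i) ^ e i = 1) :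
    FW (CC lam) lam π where
  coc := coc
  surj := surj
  nrm := nrm
  rank := rank
  comm g θ m := LinearMap.congr_fun (θ.1.2 _ ⟨g, rfl⟩) m
  faith θ hθ := Subtype.ext (Subtype.ext (LinearMap.ext hθ))
  unit θ hθ := by
    obtain ⟨u, hu⟩ : IsUnit (θ.1.1 : Module.End ℤ M) := (Module.End.isUnit_iff _).2 hθ
    have h1 : ((u⁻¹ : (Module.End ℤ M)ˣ) : Module.End ℤ M) ∈ Subring.centralizer (Set.range lam) :=
      fun x hx => by
        have : Commute x u := by rw [hu]; exact θ.1.2 x hx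
        exact this.units_inv_right
    refine IsUnit.of_mul_eq_one ⟨⟨_, h1⟩, Subring.mem_center_iff.2 fun y => Subtype.ext ?_⟩
      (Subtype.ext (Subtype.ext (by
        change (θ.1.1 : Module.End ℤ M) * _ = 1
        rw [← hu]; exact u.mul_inv)))
    have : Commute (y : Module.End ℤ M) u := by
      rw [hu]; exact congrArg Subtype.val (Subring.mem_center_iff.1 θ.2 y)
    exact this.units_inv_right

end mk

end Pool.Agent.H.MP_790f3b_al
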