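import Pool.Agent.H.MP_790f3b_al.Abs

set_option autoImplicit false

namespace Pool.Agent.H.MP_790f3b_al

universe v

@[ext] structure H where
  a : ℚ
  b : ℚ
  s : ℚ

instance : Mul H := ⟨fun x y => ⟨x.a + y.a, x.b + y.b, x.s + y.s + x.a * y.b - y.a * x.b⟩⟩
instance : One H := ⟨⟨0, 0, 0⟩⟩
instance : Inv H := ⟨fun x => ⟨-x.a, -x.b, -x.s⟩⟩
@[simp] lemma mul_a (x y : H) : (x * y).a = x.a + y.a := rfl
@[simp] lemma mul_b (x y : H) : (x * y).b = x.b + y.b := rfl
@[simp] lemma mul_s (x y : H) : (x * y).s = x.s + y.s + x.a * y.b - y.a * x.b := rfl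
@[simp] lemma one_a : (1 : H).a = 0 := rfl
@[simp] lemma one_b : (1 : H).b = 0 := rfl
@[simp] lemma one_s : (1 : H).s = 0 := rfl
@[simp] lemma inv_a (x : H) : x⁻¹.a = -x.a := rfl
@[simp] lemma inv_b (x : H) : x⁻¹.b = -x.b := rfl
@[simp] lemma inv_s (x : H) : x⁻¹.s = -x.s := rfl

instance : Group H := Group.ofLeftAxioms (fun x y z => by ext <;> simp <;> ring)
  (fun x => by ext <;> simp) (fun x => by ext <;> simp <;> ring)

lemma pow_eq (x : H) (n : ℕ) : x ^ n = ⟨n * x.a, n * x.b, n * x.s⟩ := by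
  induction n with
  | zero => ext <;> simp
  | succ n ih => rw [pow_succ, ih]; ext <;> simp <;> ring

lemma zpow_eq (x : H) (n : ℤ) : x ^ n = ⟨n * x.a, n * x.b, n * x.s⟩ := by
  rcases Int.eq_nat_or_neg n with ⟨n, rfl | rfl⟩
  · simpa using pow_eq x n
  · rw [zpow_neg, zpow_natCast, pow_eq]; ext <;> simp

def O {p : ℕ} (hp : p.Prime) : Subring ℚ where
  carrier := {q | ¬ p ∣ q.den}
  mul_mem' := fun {a b} ha hb h => (hp.dvd_mul.1 (h.trans (Rat.mul_den_dvd a b))).elim ha hb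
  add_mem' := fun {a b} ha hb h => (hp.dvd_mul.1 (h.trans (Rat.add_den_dvd a b))).elim ha hb
  one_mem' := by simpa using hp.ne_one
  zero_mem' := by simpa using hp.ne_one
  neg_mem' := fun {a} ha => by simpa using ha

lemma O_inv {p : ℕ} (hp : p.Prime) {n : ℕ} (h : ¬ p ∣ n) : (n : ℚ)⁻¹ ∈ O hp := by
  change ¬ p ∣ _
  rw [Rat.inv_natCast_den]
  split_ifs with h0
  · exact absurd (h0 ▸ dvd_zero p) h
  · exact h

lemma O_inv' {p q : ℕ} (hp : p.Prime) (hq : q.Prime) (h : p ≠ q) : (q : ℚ)⁻¹ ∈ O hp :=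
  O_inv hp fun e => h ((Nat.prime_dvd_prime_iff_eq hp hq).1 e)

lemma O_congr {p : ℕ} {hp : p.Prime} {a b : ℚ} (h : a ∈ O hp) (e : b = a) : b ∈ O hp := e ▸ h

lemma zero_of {P : Set ℕ} (hP : Big P) {q : ℚ}
    (h : ∀ p ∈ P, ∀ hp : p.Prime, p ≠ 2 → ∃ r ∈ O hp, q = p * r) : q = 0 := by
  by_contra h0
  obtain ⟨p, hp, hlt⟩ := hP.1.exists_gt (max 2 q.num.natAbs)
  have hpp := hP.2 p hp
  obtain ⟨r, hr, e⟩ := h p hp hpp (by omega)
  have h1 : ¬ p ∣ q.num.natAbs := fun hd => by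
    have := Nat.le_of_dvd (by simpa using h0) hd
    omega
  have h2 : ((q.num.natAbs : ℕ) : ℚ) ≠ 0 := by simpa using h0
  have h3 : ((q.num.natAbs : ℕ) : ℚ) = p * (r * (q.num.sign * q.den)) := by
    rw [← mul_assoc, ← e, mul_left_comm, Rat.mul_den_eq_num]
    rw [← Int.cast_mul, Int.sign_mul_self_eq_natAbs, Int.cast_natCast]
  have h4 : (p : ℚ)⁻¹ ∈ O hpp := by
    refine O_congr (mul_mem (mul_mem hr (mul_mem (intCast_mem _ q.num.sign) (natCast_mem _ q.den)))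
      (O_inv hpp h1)) ?_
    have : (p : ℚ) ≠ 0 := by exact_mod_cast hpp.ne_zero
    field_simp
    rw [h3]; ring
  apply h4
  rw [Rat.inv_natCast_den, if_neg hpp.ne_zero]

def cond {p : ℕ} (hp : p.Prime) (a b : ℚ) : Prop :=
  (p % 8 = 3 → b ∈ O hp) ∧ (p % 8 = 5 → a ∈ O hp) ∧ (p % 8 ≠ 3 → p % 8 ≠ 5 → a - b ∈ O hp)

def GG : Subgroup H where
  carrier := {g | g.a ∈ O Nat.prime_two ∧ g.b ∈ O Nat.prime_two ∧
    (g.s + g.a * g.b) / 2 ∈ O Nat.prime_two ∧ ∀ (p : ℕ) (hp : p.Prime), p ≠ 2 →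
      p * g.a ∈ O hp ∧ p * g.b ∈ O hp ∧ p * g.s ∈ O hp ∧ cond hp g.a g.b}
  one_mem' := ⟨zero_mem _, zero_mem _, by simp, fun p hp _ => by simp [cond]⟩
  inv_mem' := by
    rintro g ⟨h1, h2, h3, h4⟩
    refine ⟨neg_mem h1, neg_mem h2, O_congr (sub_mem (mul_mem h1 h2) h3) (by simp; ring),
      fun p hp h => ?_⟩
    obtain ⟨k1, k2, k3, k4, k5, k6⟩ := h4 p hp h
    exact ⟨O_congr (neg_mem k1) (by simp), O_congr (neg_mem k2) (by simp),
      O_congr (neg_mem k3) (by simp), fun e => neg_mem (k4 e), fun e => neg_mem (k5 e),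
      fun e e' => O_congr (neg_mem (k6 e e')) (by simp; ring)⟩
  mul_mem' := by
    rintro g g' ⟨h1, h2, h3, h4⟩ ⟨h1', h2', h3', h4'⟩
    refine ⟨add_mem h1 h1', add_mem h2 h2',
      O_congr (add_mem (add_mem h3 h3') (mul_mem h1 h2')) (by simp; ring), fun p hp h => ?_⟩
    obtain ⟨k1, k2, k3, k4, k5, k6⟩ := h4 p hp h
    obtain ⟨k1', k2', k3', k4', k5', k6'⟩ := h4' p hp h
    refine ⟨O_congr (add_mem k1 k1') (by simp; ring), O_congr (add_mem k2 k2') (by simp; ring), ?_,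
      fun e => add_mem (k4 e) (k4' e), fun e => add_mem (k5 e) (k5' e),
      fun e e' => O_congr (add_mem (k6 e e') (k6' e e')) (by simp; ring)⟩
    by_cases e : p % 8 = 3
    · exact O_congr (add_mem (add_mem k3 k3') (sub_mem (mul_mem k1 (k4' e)) (mul_mem k1' (k4 e))))
        (by simp; ring)
    by_cases e' : p % 8 = 5
    · exact O_congr (add_mem (add_mem k3 k3') (sub_mem (mul_mem k2' (k5 e')) (mul_mem k2 (k5' e'))))
        (by simp; ring)
    · exact O_congr (add_mem (add_mem k3 k3')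
        (sub_mem (mul_mem k2' (k6 e e')) (mul_mem k2 (k6' e e')))) (by simp; ring)

def ZZ : Subgroup GG where
  carrier := {g | g.1.a = 0 ∧ g.1.b = 0}
  one_mem' := ⟨rfl, rfl⟩
  inv_mem' := fun {g} h => ⟨by simpa using h.1, by simpa using h.2⟩
  mul_mem' := fun {g g'} h h' => ⟨by simp [h.1, h'.1], by simp [h.2, h'.2]⟩

lemma mem_int (i j k : ℤ) : (⟨i, j, i * j + 2 * k⟩ : H) ∈ GG :=
  ⟨intCast_mem _ i, intCast_mem _ j, O_congr (intCast_mem _ (i * j + k)) (by push_cast; ring),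
    fun p hp _ => ⟨mul_mem (natCast_mem _ _) (intCast_mem _ _),
      mul_mem (natCast_mem _ _) (intCast_mem _ _),
      O_congr (intCast_mem _ (p * (i * j + 2 * k))) (by push_cast; ring), fun _ => intCast_mem _ _,
      fun _ => intCast_mem _ _, fun _ _ => sub_mem (intCast_mem _ _) (intCast_mem _ _)⟩⟩

def xx : GG := ⟨⟨1, 0, 0⟩, by simpa using mem_int 1 0 0⟩
def yy : GG := ⟨⟨0, 1, 0⟩, by simpa using mem_int 0 1 0⟩

lemma mem_root {q : ℕ} (hq : q.Prime) (h2 : q ≠ 2) (i j : ℤ) (hij : i * j = 0 ∨ i * j = 1)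
    (h3 : q % 8 = 3 → j = 0) (h5 : q % 8 = 5 → i = 0) (h7 : q % 8 ≠ 3 → q % 8 ≠ 5 → i = j) :
    (⟨i * (q : ℚ)⁻¹, j * (q : ℚ)⁻¹, i * j * (q : ℚ)⁻¹⟩ : H) ∈ GG := by
  have q0 : (q : ℚ) ≠ 0 := by exact_mod_cast hq.ne_zero
  have e2 := O_inv' Nat.prime_two hq h2.symm
  obtain ⟨t, ht⟩ := hq.odd_of_ne_two h2
  refine ⟨mul_mem (intCast_mem _ _) e2, mul_mem (intCast_mem _ _) e2,
    O_congr (mul_mem (intCast_mem _ (i * j * (t + 1))) (mul_mem e2 e2)) ?_, fun p hp h => ?_⟩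
  · have : (q : ℚ) = 2 * t + 1 := by exact_mod_cast ht
    push_cast; field_simp; rw [this]; ring
  · by_cases e : p = q
    · subst e
      refine ⟨O_congr (intCast_mem _ i) (by field_simp), O_congr (intCast_mem _ j) (by field_simp),
        O_congr (intCast_mem _ (i * j)) (by push_cast; field_simp), fun e => by simp [h3 e],
        fun e => by simp [h5 e], fun e e' => by simp [h7 e e']⟩
    · have e3 := O_inv' hp hq e
      have ei := mul_mem (intCast_mem (O hp) i) e3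
      have ej := mul_mem (intCast_mem (O hp) j) e3
      exact ⟨mul_mem (natCast_mem _ _) ei, mul_mem (natCast_mem _ _) ej,
        mul_mem (natCast_mem _ _) (mul_mem (mul_mem (intCast_mem _ _) (intCast_mem _ _)) e3),
        fun _ => ej, fun _ => ei, fun _ _ => sub_mem ei ej⟩

lemma big_mod (r : ℕ) (h : r.Coprime 8) (h8 : r < 8) : Big {p | p.Prime ∧ p % 8 = r} :=
  ⟨(Nat.infinite_setOf_prime_and_modEq (q := 8) (by norm_num) h).mono fun p hp =>
    ⟨hp.1, Eq.trans hp.2 (Nat.mod_eq_of_lt h8)⟩, fun _ h => h.1⟩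

lemma dep3 (u : Fin 3 → H) : ∃ e : Fin 3 → ℤ, (∃ i, e i ≠ 0) ∧
    (u 0 ^ e 0 * u 1 ^ e 1 * u 2 ^ e 2).a = 0 ∧ (u 0 ^ e 0 * u 1 ^ e 1 * u 2 ^ e 2).b = 0 := by
  have : ¬ LinearIndependent ℤ fun i => ((u i).a, (u i).b) := by
    rw [LinearIndependent.iff_fractionRing ℤ ℚ]
    intro h
    simpa using h.fintype_card_le_finrank
  obtain ⟨e, h1, h2⟩ := Fintype.not_linearIndependent_iff.1 this
  refine ⟨e, h2, ?_, ?_⟩
  · simpa [zpow_eq, Fin.sum_univ_three] using congrArg Prod.fst h1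
  · simpa [zpow_eq, Fin.sum_univ_three] using congrArg Prod.snd h1

lemma gp : GP.{v} ZZ xx yy where
  cen z hz g := Subtype.ext (by ext <;> simp [hz.1, hz.2, add_comm])
  c2 g h := ⟨g * h * (h * g)⁻¹, ⟨by simp; ring, by simp; ring⟩, by group⟩
  tf g n hn e := by
    have := congrArg Subtype.val e
    rw [Subgroup.coe_pow, pow_eq] at this
    simp only [OneMemClass.coe_one, H.ext_iff, one_a, one_b, one_s, mul_eq_zero, Nat.cast_eq_zero, hn,
      false_or] at this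
    exact Subtype.ext (H.ext this.1 this.2.1 this.2.2)
  tfZ g n hn e := by
    have h1 := e.1
    have h2 := e.2
    rw [Subgroup.coe_pow, pow_eq] at h1 h2
    exact ⟨by simpa [hn] using h1, by simpa [hn] using h2⟩
  H1 P hP g h := by
    refine Subtype.ext (H.ext (zero_of hP ?_) (zero_of hP ?_) (zero_of hP ?_)) <;>
      intro p hp hpp h2 <;> obtain ⟨c, rfl⟩ := h p hp
    · exact ⟨_, (c.2.2.2.2 p hpp h2).1, by simp [pow_eq, mul_assoc]⟩
    · exact ⟨_, (c.2.2.2.2 p hpp h2).2.1, by simp [pow_eq, mul_assoc]⟩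
    · exact ⟨_, (c.2.2.2.2 p hpp h2).2.2.1, by simp [pow_eq, mul_assoc]⟩
  HZ P hP g h := by
    refine ⟨zero_of hP ?_, zero_of hP ?_⟩ <;>
      intro p hp hpp h2 <;> obtain ⟨c, z, hz, rfl⟩ := h p hp
    · exact ⟨_, (c.2.2.2.2 p hpp h2).1, by simp [pow_eq, mul_assoc, hz.1]⟩
    · exact ⟨_, (c.2.2.2.2 p hpp h2).2.1, by simp [pow_eq, mul_assoc, hz.2]⟩
  rZ z hz P hP := by
    refine ⟨P \ Set.Iic (max 2 z.1.s.den), ⟨hP.1.diff (Set.finite_Iic _), fun p hp => hP.2 p hp.1⟩,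
      Set.diff_subset, fun q hq => ?_⟩
    have hqp := hP.2 q hq.1
    have hlt : max 2 z.1.s.den < q := not_le.1 hq.2
    have q0 : (q : ℚ) ≠ 0 := by exact_mod_cast hqp.ne_zero
    obtain ⟨-, -, h3, h4⟩ := z.2
    refine ⟨⟨⟨0, 0, z.1.s * (q : ℚ)⁻¹⟩, zero_mem _, zero_mem _,
      O_congr (mul_mem h3 (O_inv' Nat.prime_two hqp (by omega))) (by simp [hz.1]; ring),
      fun p hp h => ⟨by simp, by simp, ?_, by simp [cond]⟩⟩, ⟨rfl, rfl⟩, Subtype.ext ?_⟩
    · by_cases e : p = q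
      · subst e
        exact O_congr (a := z.1.s) (fun hd => by have := Nat.le_of_dvd z.1.s.den_pos hd; omega)
          (by field_simp)
      · exact O_congr (mul_mem (h4 p hp h).2.2.1 (O_inv' hp hqp e)) (by ring)
    · rw [Subgroup.coe_pow, pow_eq]
      ext <;> simp [hz.1, hz.2]
      field_simp
  rt u hu := by
    have fin : ∀ (q : ℕ) (hq : q.Prime) (i j : ℤ) (h), (u : H) = ⟨i, j, i * j⟩ →
        (⟨⟨i * (q : ℚ)⁻¹, j * (q : ℚ)⁻¹, i * j * (q : ℚ)⁻¹⟩, h⟩ : GG) ^ q = u := by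
      intro q hq i j h e
      have q0 : (q : ℚ) ≠ 0 := by exact_mod_cast hq.ne_zero
      refine Subtype.ext ?_
      rw [Subgroup.coe_pow, pow_eq, e]
      ext <;> simp <;> field_simp
    rcases hu with rfl | rfl | rfl
    · exact ⟨_, big_mod 3 (by norm_num) (by norm_num), fun q hq => ⟨_, fin q hq.1 1 0
        (mem_root hq.1 (by have := hq.2; omega) 1 0 (by simp) (by simp) (by have := hq.2; omega)
          (by have := hq.2; omega)) (by simp [xx])⟩⟩
    · exact ⟨_, big_mod 5 (by norm_num) (by norm_num), fun q hq => ⟨_, fin q hq.1 0 1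
        (mem_root hq.1 (by have := hq.2; omega) 0 1 (by simp) (by have := hq.2; omega) (by simp)
          (by have := hq.2; omega)) (by simp [yy])⟩⟩
    · exact ⟨_, big_mod 7 (by norm_num) (by norm_num), fun q hq => ⟨_, fin q hq.1 1 1
        (mem_root hq.1 (by have := hq.2; omega) 1 1 (by simp) (by have := hq.2; omega)
          (by have := hq.2; omega) (by simp)) (by ext <;> simp [xx, yy])⟩⟩
  gen K hx hy hZ g := by
    refine ⟨g.1.a.den * g.1.b.den, mul_ne_zero g.1.a.den_nz g.1.b.den_nz, ?_⟩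
    have h1 := K.mul_mem (K.zpow_mem hx (g.1.a.num * g.1.b.den)) (K.zpow_mem hy (g.1.b.num * g.1.a.den))
    refine (K.mul_mem_cancel_left (K.inv_mem h1)).1 (hZ ⟨?_, ?_⟩)
    · simp [zpow_eq, pow_eq, xx, yy]
      rw [← Rat.mul_den_eq_num]; ring
    · simp [zpow_eq, pow_eq, xx, yy]
      rw [← Rat.mul_den_eq_num]; ring
  rank U _ D τ c := by
    obtain ⟨e, ⟨i, he⟩, h1, h2⟩ := dep3 fun i => (c i).1.1
    obtain ⟨f, ⟨j, hf⟩, h3, h4⟩ := dep3 fun i => (c (i + 3)).1.1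
    set g := c 0 ^ e 0 * c 1 ^ e 1 * c 2 ^ e 2 with hg
    set g' := c 3 ^ f 0 * c 4 ^ f 1 * c 5 ^ f 2 with hg'
    have k1 : g.1.1.a = 0 := h1
    have k2 : g.1.1.b = 0 := h2
    have k3 : g'.1.1.a = 0 := h3
    have k4 : g'.1.1.b = 0 := h4
    obtain ⟨k, l, hkl, e'⟩ : ∃ k l : ℤ, (k ≠ 0 ∨ l ≠ 0) ∧ g ^ k * g' ^ l = 1 := by
      by_cases h0 : g.1.1.s = 0
      · exact ⟨1, 0, by simp, Subtype.ext (Subtype.ext (by ext <;> simp [k1, k2, h0]))⟩
      · refine ⟨g'.1.1.s.num * g.1.1.s.den, -(g.1.1.s.num * g'.1.1.s.den),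
          Or.inr (by simp [h0]), Subtype.ext (Subtype.ext ?_)⟩
        simp only [Subgroup.coe_mul, SubgroupClass.coe_zpow, zpow_eq]
        ext <;> simp [k1, k2, k3, k4]
        rw [← Rat.mul_den_eq_num, ← Rat.mul_den_eq_num]; ring
    refine ⟨fun n => if h : n < 3 then e ⟨n, h⟩ * k else if h' : n - 3 < 3 then f ⟨n - 3, h'⟩ * l
      else 0, ?_, ?_⟩
    · rcases hkl with h | h
      · exact ⟨i, by omega, by simp [he, h]⟩
      · exact ⟨j + 3, by omega, by simp [hf, h]⟩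
    · have := congrArg τ e'
      simp only [hg, hg', map_mul, map_zpow, mul_zpow, ← zpow_mul, map_one] at this
      simpa [Finset.prod_range_succ, mul_assoc] using this
  nsq z hz e := by
    have h1 := congrArg (fun g : GG => g.1.s) e
    have h2 := z.2.2.2.1
    simp [xx, yy, hz.1, hz.2] at h1 h2
    have : z.1.s / 2 = ((2 : ℕ) : ℚ)⁻¹ := by push_cast; linarith
    rw [this] at h2
    exact h2 (by rw [Rat.inv_natCast_den]; simp)

theorem no_brace (A : Type v) [AddCommGroup A] [Group A]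
    (h : ∀ a b c : A, a * (b + c) = a * b - a + a * c) (e : GG ≃* A) : False := by
  have h0 : (1 : A) = 0 := by
    have := h 1 0 0
    simp only [one_mul, add_zero, zero_sub] at this
    exact neg_eq_zero.1 this.symm
  have a0 : ∀ a : A, a * 0 = a := fun a => by rw [← h0, mul_one]
  let L : A → A →+ A := fun a => AddMonoidHom.mk' (fun b => a * b - a) fun b c => by
    rw [h]; abel
  have hL : ∀ a b, L a b = a * b - a := fun _ _ => rfl
  let lam : GG →* Module.End ℤ A :=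
    { toFun := fun g => (L (e g)).toIntLinearMap
      map_one' := by ext b; simp [hL, h0]
      map_mul' := fun g g' => by
        ext b
        change L _ b = L _ (L _ b)
        rw [hL (e g'), map_sub, hL, hL, hL, map_mul, mul_assoc]; abel }
  exact absurd_brace (lam := lam) (π := e) gp (fun g g' => by
    change _ = e g + L _ _
    rw [hL, map_mul]; abel) e.bijective

end Pool.Agent.H.MP_790f3b_al
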