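import Mathlib

set_option autoImplicit false

namespace Pool.Agent.H.MP_790f3b_al

lemma jac_int : IsJacobsonRing ℤ := by
  rw [isJacobsonRing_iff_prime_eq]
  intro P hP
  by_cases h : P = ⊥
  · subst h
    refine le_bot_iff.1 fun x hx => ?_
    have h1 := Int.isUnit_iff.1 (Ideal.mem_jacobson_bot.1 hx x)
    have : x * x = 0 := by rcases h1 with h1 | h1 <;> nlinarith [mul_self_nonneg x]
    simpa using this
  · have := hP.isMaximal h
    exact Ideal.jacobson_eq_self_of_isMaximal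

lemma top_rel {U : Type*} [CommGroup U] (u : ℕ → U) (e : ℕ → ℤ) : ∀ m : ℕ, (∃ i < m, e i ≠ 0) →
    ∏ i ∈ Finset.range m, u i ^ e i = 1 →
    ∃ n, e n ≠ 0 ∧ u n ^ e n ∈ Subgroup.closure (u '' {i | i < n}) := by
  intro m
  induction m with
  | zero => simp
  | succ m ih =>
    rintro ⟨i, hi, he⟩ h
    rw [Finset.prod_range_succ] at h
    by_cases hm : e m = 0
    · refine ih ⟨i, ?_, he⟩ (by simpa [hm] using h)
      have : i ≠ m := fun h => he (h ▸ hm)
      omega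
    · refine ⟨m, hm, ?_⟩
      rw [eq_inv_of_mul_eq_one_right h]
      exact inv_mem (Subgroup.prod_mem _ fun j hj => zpow_mem
        (Subgroup.subset_closure (Set.mem_image_of_mem u (show j ∈ {i | i < m} from Finset.mem_range.1 hj))) _)

lemma ex_unit {C : Type*} [CommRing C] (J : Ideal C) (hJ : ∀ j ∈ J, IsUnit (1 + j)) {a : C}
    (ha : a ∈ J) (hn : ¬ IsNilpotent a) (s : Finset C) :
    ∃ u : Cˣ, (u : C) - 1 ∈ J ∧ (u : C) ∈ Algebra.adjoin ℤ (insert a (s : Set C)) ∧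
      ((u⁻¹ : Cˣ) : C) ∉ Algebra.adjoin ℤ (insert a (s : Set C)) := by
  set T := Algebra.adjoin ℤ (insert a (s : Set C))
  have := jac_int
  have : Algebra.FiniteType ℤ T := Algebra.FiniteType.adjoin_of_finite (s.finite_toSet.insert a)
  have : IsJacobsonRing T := isJacobsonRing_of_finiteType (A := ℤ)
  let a' : T := ⟨a, Algebra.subset_adjoin (Set.mem_insert _ _)⟩
  have h1 : a' ∉ (⊥ : Ideal T).jacobson := by
    rw [← Ideal.radical_eq_jacobson]
    rintro ⟨n, hn'⟩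
    exact hn ⟨n, by simpa using congrArg Subtype.val (Ideal.mem_bot.1 hn')⟩
  rw [Ideal.mem_jacobson_bot, not_forall] at h1
  obtain ⟨t, ht⟩ := h1
  obtain ⟨u, hu⟩ := hJ (a * t) (J.mul_mem_right _ ha)
  have hu' : (u : C) = (a' * t + 1 : T) := by rw [hu, add_comm]; rfl
  refine ⟨u, by rw [hu]; simpa using J.mul_mem_right _ ha, hu' ▸ Subtype.property _, fun h => ht ?_⟩
  exact IsUnit.of_mul_eq_one ⟨_, h⟩ (Subtype.ext (by
    rw [Subalgebra.coe_mul, ← hu']; exact u.mul_inv))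

theorem nil_of_rank {C : Type*} [CommRing C] (J : Ideal C) (hJ : ∀ j ∈ J, IsUnit (1 + j))
    (hR : ∀ u : ℕ → Cˣ, (∀ i, (u i : C) - 1 ∈ J) →
      ∃ e : ℕ → ℤ, (∃ i < 6, e i ≠ 0) ∧ ∏ i ∈ Finset.range 6, u i ^ e i = 1)
    {a : C} (ha : a ∈ J) : IsNilpotent a := by
  classical
  by_contra hn
  choose f h1 h2 h3 using ex_unit J hJ ha hn
  let s : ℕ → Finset C := fun n => Nat.rec ∅ (fun _ t => insert (((f t)⁻¹ : Cˣ) : C) t) n
  have hs : ∀ n, s (n + 1) = insert (((f (s n))⁻¹ : Cˣ) : C) (s n) := fun _ => rfl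
  have mono : Monotone s := monotone_nat_of_le_succ fun n => hs n ▸ Finset.subset_insert _ _
  obtain ⟨e, he, hp⟩ := hR (fun n => f (s n)) fun n => h1 _
  obtain ⟨n, hn0, hn1⟩ := top_rel _ e 6 he hp
  let T : Subalgebra ℤ C := Algebra.adjoin ℤ (insert a (SetLike.coe (s n)))
  let V : Subgroup Cˣ :=
    { carrier := {u | (u : C) ∈ T ∧ ((u⁻¹ : Cˣ) : C) ∈ T}
      mul_mem' := fun {x y} hx hy => ⟨T.mul_mem hx.1 hy.1, by
        rw [mul_inv_rev]; exact T.mul_mem hy.2 hx.2⟩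
      one_mem' := ⟨T.one_mem, T.one_mem⟩
      inv_mem' := fun {x} hx => ⟨hx.2, by simpa using hx.1⟩ }
  have hV : f (s n) ^ e n ∈ V := by
    refine (Subgroup.closure_le V).2 ?_ hn1
    rintro _ ⟨i, hi, rfl⟩
    refine ⟨Algebra.adjoin_mono (Set.insert_subset_insert (mono (le_of_lt hi))) (h2 _),
      Algebra.subset_adjoin (Set.mem_insert_of_mem _ (mono (Nat.succ_le_of_lt hi) ?_))⟩
    rw [hs]; exact Finset.mem_insert_self _ _
  have hV' : f (s n) ^ (e n).natAbs ∈ V := by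
    rcases Int.natAbs_eq (e n) with h | h
    · rwa [h, zpow_natCast] at hV
    · rw [h, zpow_neg, zpow_natCast] at hV; simpa using V.inv_mem hV
  obtain ⟨k, hk⟩ : ∃ k, (e n).natAbs = k + 1 := ⟨(e n).natAbs - 1, by omega⟩
  apply h3 (s n)
  have : (f (s n))⁻¹ = f (s n) ^ k * (f (s n) ^ (k + 1))⁻¹ := by group
  rw [this, Units.val_mul, Units.val_pow_eq_pow_val]
  exact T.mul_mem (T.pow_mem (h2 _) k) (hk ▸ hV').2

end Pool.Agent.H.MP_790f3b_al
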